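import Mathlib
import Pool.Agent.H890.Top2

/-!
MP_2c56d9_ag, Q1: the boundary can be removed. Weak abundance (`κ = ν`) for log canonical pairs with
a `ℚ`-Cartier boundary (for instance on `ℚ`-factorial varieties) follows from weak abundance for log
canonical varieties without boundary; the same for klt pairs.
-/

set_option autoImplicit false

namespace Pool.Agent.Results.MP_2c56d9_ag.BoundaryRemovalKappaNu

open FF Pool.Agent.Y172 Pool.Agent.R887 Pool.Agent.H890

/-- (1) Let `X` be a normal projective variety over `ℂ` of dimension `n ≥ 1` with function field `K`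
(`y` is its generic point, in homogeneous coordinates), let `Δ` be an effective `ℚ`-divisor such that
`b Δ` is Cartier, `b ≥ 2`, and let `(X, Δ)` be log canonical. Then there is a normal projective
variety `V` of dimension `n + 2 b - 2`, with generic point `v` and function field `M`, birational to
`X × P ^ (2 b - 2)` (`M` is the field of rational functions in `2 b - 2` variables `t` over `K`),
such that (without boundary)

* `V` is log canonical, and klt if `(X, Δ)` is klt;
* `κ (V, K_V) = κ (X, K_X + Δ)`;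
* `ν (V, K_V) ≥ ν (X, K_X + Δ)`.

(2) Hence `κ = ν` for all log canonical varieties without boundary (of all dimensions) is equivalent
to `κ = ν` for all log canonical pairs `(X, Δ)` such that some multiple `b Δ`, `b ≥ 1`, of the
effective `ℚ`-divisor `Δ` is Cartier.

(3) The same holds for klt varieties and klt pairs. -/
theorem result :
    (∀ (K : Type) [Field K] [Algebra ℂ K] (n b N : ℕ) (y : Fin (N + 1) → K)
      (Δ : Place ℂ K → ℚ), Algebra.trdeg ℂ K = n → 1 ≤ n → 2 ≤ b → NormalModel y →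
      Effective y Δ → CartierMul y n b Δ → LogCanonical y n Δ →
      ∃ (M : Type) (_ : Field M) (_ : Algebra ℂ M) (_ : Algebra K M) (_ : IsScalarTower ℂ K M)
        (t : Fin (2 * b - 2) → M) (N' : ℕ) (v : Fin (N' + 1) → M), AlgebraicIndependent K t ∧
        IntermediateField.adjoin K (Set.range t) = ⊤ ∧
        WeaklyReplaces v (n + (2 * b - 2)) y n Δ) ∧
    ((∀ (K : Type) [Field K] [Algebra ℂ K] (n N : ℕ) (y : Fin (N + 1) → K),
        Algebra.trdeg ℂ K = n → 1 ≤ n → NormalModel y → LogCanonical y n 0 →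
        WeakAbundance y n 0) ↔
      ∀ (K : Type) [Field K] [Algebra ℂ K] (n b N : ℕ) (y : Fin (N + 1) → K)
        (Δ : Place ℂ K → ℚ), Algebra.trdeg ℂ K = n → 1 ≤ n → 1 ≤ b → NormalModel y →
        Effective y Δ → CartierMul y n b Δ → LogCanonical y n Δ → WeakAbundance y n Δ) ∧
    ((∀ (K : Type) [Field K] [Algebra ℂ K] (n N : ℕ) (y : Fin (N + 1) → K),
        Algebra.trdeg ℂ K = n → 1 ≤ n → NormalModel y → Klt y n 0 → WeakAbundance y n 0) ↔
      ∀ (K : Type) [Field K] [Algebra ℂ K] (n b N : ℕ) (y : Fin (N + 1) → K)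
        (Δ : Place ℂ K → ℚ), Algebra.trdeg ℂ K = n → 1 ≤ n → 1 ≤ b → NormalModel y →
        Effective y Δ → CartierMul y n b Δ → Klt y n Δ → WeakAbundance y n Δ) := by
  refine ⟨fun K _ _ n b N y Δ hn hn1 hb hy hΔ hcar hlc => ?_, ⟨fun h => ?_, fun h => ?_⟩,
    ⟨fun h => ?_, fun h => ?_⟩⟩
  · obtain ⟨M, _, _, _, _, t, N', v, h1, h2, -, h4⟩ := removal2 K hb hn1 hn hy hΔ hcar hlc
    exact ⟨M, _, _, _, ‹_›, t, N', v, h1, h2, h4⟩
  · intro K _ _ n b N y Δ hn hn1 hb hy hΔ hcar hlc
    obtain ⟨M, _, _, _, _, t, N', v, h1, h2, -, h4⟩ := removal2 K (show 2 ≤ 2 * b by omega) hn1 hn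
      hy hΔ (cartierMul_mul 2 hcar) hlc
    exact weak_of_replaces h4 (h M _ N' v (trdeg_of hn h1 h2) (by omega) h4.normal h4.lc)
  · intro K _ _ n N y hn hn1 hy hlc
    exact h K n 1 N y 0 hn hn1 le_rfl hy (effective_zero y) (cartierMul_zero n 1 y) hlc
  · intro K _ _ n b N y Δ hn hn1 hb hy hΔ hcar hklt
    obtain ⟨M, _, _, _, _, t, N', v, h1, h2, -, h4⟩ := removal2 K (show 2 ≤ 2 * b by omega) hn1 hn
      hy hΔ (cartierMul_mul 2 hcar) hklt.lc
    exact weak_of_replaces h4 (h M _ N' v (trdeg_of hn h1 h2) (by omega) h4.normal (h4.klt hklt))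
  · intro K _ _ n N y hn hn1 hy hklt
    exact h K n 1 N y 0 hn hn1 le_rfl hy (effective_zero y) (cartierMul_zero n 1 y) hklt

end Pool.Agent.Results.MP_2c56d9_ag.BoundaryRemovalKappaNu
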