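import Pool.Agent.H897.OM

/-!
MP_2c56d9_ag, Q1: weak abundance for pairs with orbifold tensors which are semistable along the
generic fibre of their moduli map.

**The pair.** `NormalModel y` (`Pool/Agent/Y172/Defs.lean`): `y` is the generic point, in
homogeneous coordinates, of a normal projective variety `X` with function field `K`. `Δ` is an
effective `ℚ`-divisor, with the coefficient `Δ P` at the prime divisor `P` (`IsPrimeDivisor y P`). A
`Place ℂ K` is a (normalised discrete) valuation `Q` of `K` over `ℂ`; `localRing y Q` is the local
ring of `X` at the centre of `Q`. `IsSection y n d D ω`: `ω` is a section of `d K_X + D`.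
`kodairaDim y n Δ` and `numericalDim y n Δ A` are the Kodaira dimension and the numerical dimension
(the growth of the sections of `m (K_X + Δ) + A`) of `K_X + Δ`, exactly as in the problem. It is not
necessary that the pair is log canonical, that `X` is `ℚ`-factorial or that `K_X + Δ` is
`ℚ`-Cartier.

**The tensors** (`TS.lean`, `OB.lean` in `Pool/Agent/H897`). `Twisted a T`: `T` is a rational section
of `(Ω¹) ^ ⊗ m ⊗ O (a K_X)`, given as a tensor `T E` which depends on the choice of a basis `E` of
the rational vector fields and is multiplied with `det A ^ a` if `E` is changed by the matrix `A`.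
`OrbAt δ P a T`: along the prime divisor `P` with the coefficient `δ = Δ P`, the tensor `T` is a
section of the `m`-th tensor power of the orbifold cotangent sheaf `Ω¹ (X, Δ)` of Campana, with
values in `a (K_X + Δ)`: on vector fields which are regular along `P`, of which at most those with
indices in `S` are not tangent to `P`, its order is at least `- δ (|S| + a)`. The integers `a i` may
be negative; the condition is `m i + n * a i ≥ 1`.

**Semistability.** `SncAt y Δ Q x E δ`: the centre of `Q` is a smooth point of `X` with local
coordinates `x l` (up to constants) and coordinate vector fields `E l`, and `Δ = ∑ δ l div (x l)`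
there (simple normal crossings). `lead`: the leading coefficients of the tensors at the centre of
`Q` in the orbifold frame `d x l / x l ^ δ l`: the residue of the coefficient `t_J` multiplied with
`∏ l, x l ^ (δ l * (number of the indices l in J + a))` if all these exponents are integers, and
`0` otherwise. `SemistableOrb y Δ a T Q`: such coordinates exist and the leading coefficients (over
an algebraically closed extension of the residue field of `Q`) are semistable for the special linear
group in the sense of Hilbert and Mumford (`SemistableFam`). For a prime divisor `Q = P` this is a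
condition at the generic point of `P`.

**The moduli.** `TwInv m n a d Q`: the polynomial `Q` in the coefficients of the tensors is a
semi-invariant of `GL n` of weight `d`. `Moduli a T E`: the quotients of the values of two
semi-invariants of the same weight `d ≥ 1`. They generate a field `F`, the function field of the
image `Z` of the moduli map of `X`.

**Theorem.** Suppose that for every place `Q` which is trivial on `F` (that is, at every point of
the generic fibre of the moduli map) `GoodCentreOrb y Δ F a T Q` holds: the pair has simple normal
crossings at the centre of `Q` and the `T i` are semistable there, or the moduli map is regular at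
the centre (`F` is contained in the local ring) and the `T i` are semistable at the generic points
of all prime divisors through the centre. Then `κ (K_X + Δ) = ν (K_X + Δ) = dim Z`, and all
quotients of two sections of a multiple of `K_X + Δ` are algebraic over `F`: the Iitaka fibration of
the pair is, up to generically finite maps, the moduli map. There is no condition at the points
which are not on the generic fibre of the moduli map. If moreover the `T i` are semistable at all
points then `d (K_X + Δ)` is integral and base point free for some `d ≥ 1`.
-/

set_option autoImplicit false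

open FF Pool.Agent.W602.GT Pool.Agent.Y172 Pool.Agent.NH31 Pool.Agent.H897

namespace Pool.Agent.Results.MP_2c56d9_ag.OrbifoldSemistableTensors

/-- **Weak abundance for pairs with semistable orbifold tensors.** -/
theorem result {K : Type} [Field K] [Algebra ℂ K] {N n : ℕ} {y : Fin (N + 1) → K}
    (hy : NormalModel y) (hn : Algebra.trdeg ℂ K = n) (hn1 : 1 ≤ n) {Δ : Place ℂ K → ℚ}
    (hΔ : Effective y Δ) {ι : Type} [Finite ι] {m : ι → ℕ} (hm : ∀ i, 1 ≤ m i) {a : ι → ℤ}
    (ha : ∀ i, 1 ≤ (m i : ℤ) + n * a i)
    {T : (i : ι) → (Fin n → Derivation ℂ K K) →
      MultilinearMap K (fun _ : Fin (m i) => Derivation ℂ K K) K}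
    (hT : ∀ i, Twisted (a i) (T i))
    (hh : ∀ P, IsPrimeDivisor y P → ∀ i, OrbAt (Δ P) P (a i) (T i))
    {E : Fin n → Derivation ℂ K K} (hE : IsFrame E) :
    ((∀ Q : Place ℂ K, Horizontal (IntermediateField.adjoin ℂ (Moduli a T E)) Q →
        GoodCentreOrb y Δ (IntermediateField.adjoin ℂ (Moduli a T E)) a T Q) →
      ∃ κ : ℕ, κ ≤ n ∧ Algebra.trdeg ℂ (IntermediateField.adjoin ℂ (Moduli a T E)) = κ ∧
        kodairaDim y n Δ = κ ∧
        (∀ A, Effective y A → Integral y A → numericalDim y n Δ A = κ) ∧
        ∀ (d : ℕ) (η η' : (Fin n → Derivation ℂ K K) → K), 1 ≤ d →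
          IsSection y n d (d • Δ) η → IsSection y n d (d • Δ) η' → η' E ≠ 0 →
          IsAlgebraic (IntermediateField.adjoin ℂ (Moduli a T E)) (η E / η' E)) ∧
    ((∀ Q : Place ℂ K, SemistableOrb y Δ a T Q) →
      ∃ d : ℕ, 1 ≤ d ∧ Integral y (d • Δ) ∧ ∀ Q : Place ℂ K,
        ∃ ω : (Fin n → Derivation ℂ K K) → K, IsSection y n d (d • Δ) ω ∧
          ∀ P, IsPrimeDivisor y P → Through y P Q → OrdEq P ω (-(d * Δ P))) := by
  refine ⟨fun hss => ?_, orb_bpf hy hn hn1 hm ha hT hΔ.2 hh⟩
  obtain ⟨κ, hκ, m0, ω, hm0, hω, hω0, hind, hF, hup⟩ :=
    orb_growth hy hn hn1 hm ha hT hΔ.2 hh hE hss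
  obtain ⟨h1, h2⟩ := dims hΔ hE (fun A hA => hup A hA.2) hm0 hω hω0 hind
  refine ⟨κ, ?_, hκ, h1, h2, fun d η η' hd hη hη' h0 =>
    orb_quot hΔ hE hm0 hω hω0 hind hF hup hd hη hη' h0⟩
  have h3 : AlgebraicIndependent ℂ (fun i : Fin κ => ω i.succ E / ω 0 E) := hind
  have h4 := h3.cardinalMk_le_trdeg
  rw [hn, Cardinal.mk_fin] at h4
  exact_mod_cast h4

end Pool.Agent.Results.MP_2c56d9_ag.OrbifoldSemistableTensors
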