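import Pool.Agent.H892.C8

/-!
Weak abundance for log canonical pairs such that the generic fibre of the Iitaka fibration has an
action of a unipotent group with a rational quotient of dimension at most one.
-/

set_option autoImplicit false

open FF Pool.Agent.W602.GT Pool.Agent.Y172 Pool.Agent.NH31 Pool.Agent.H892

namespace Pool.Agent.Results.MP_2c56d9_ag.UnipotentComplexityOne

/-- **Weak abundance for log canonical pairs whose Iitaka fibration has a generic fibre with a
unipotent group action of complexity at most one.** -/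
theorem result {K L : Type} [Field K] [Algebra ℂ K] [Field L] [Algebra ℂ L] [Algebra K L]
    [IsScalarTower ℂ K L] [FiniteDimensional K L] {n N M : ℕ}
    {y : Fin (N + 1) → K} (hy : NormalModel y) (hn : Algebra.trdeg ℂ K = n)
    {Δ : Place ℂ K → ℚ} (hΔ : Effective y Δ) (hlc : LogCanonical y n Δ)
    {z : Fin (M + 1) → L} (hz : NormalModel z) {B : Place ℂ L → ℚ} (hB : Effective z B)
    (hnv : ∃ a : ℕ, 1 ≤ a ∧ ∃ σ, IsSection z n a (a • B) σ ∧ σ ≠ 0)
    {F : IntermediateField ℂ L} (hF : BelowIitaka z n B F) (hreg : FibreProper z F)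
    (huni : UnipotentFibreOne z F)
    (hdisc : ∀ P, IsPrimeDivisor y P → ∀ (Q : Place ℂ L) (e : ℕ), LiesOver Q P e →
      (IsPrimeDivisor z Q ∧ e * (1 - Δ P) ≤ 1 - B Q) ∨
        ∃ α : ℚ, e * (1 - Δ P) < α ∧ LogDiscGe z n B Q α) :
    ∃ κ : ℕ, kodairaDim y n Δ = (κ : WithBot ℕ) ∧
      ∀ A, Effective y A → Integral y A → numericalDim y n Δ A = (κ : EReal) := by
  obtain ⟨a, ha, σ, hσ, hσ0⟩ := hnv
  obtain ⟨F', ι, hι, D, w, d, x, hd⟩ := huni.data hreg
  exact reduction hy hn hz hΔ hlc hB ha hσ hσ0 hdisc fun V hV hBV =>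
    uni_abund2 hz (trdeg_up (K := K) hn) hd hF hV hBV ha hσ hσ0

end Pool.Agent.Results.MP_2c56d9_ag.UnipotentComplexityOne
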